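import Pool.Agent.H13.LightsA

namespace Pool.Agent.Results.MP_222d4b_co.Two
open Polynomial Finset Pool.Agent.H13.Lights

/-- two cells differ by one in exactly one coordinate -/
def Adj {n : ℕ} (c c' : Fin n × Fin n) : Prop :=
  (c.1 = c'.1 ∧ ((c.2 : ℕ) + 1 = c'.2 ∨ (c'.2 : ℕ) + 1 = c.2)) ∨
    (c.2 = c'.2 ∧ ((c.1 : ℕ) + 1 = c'.1 ∨ (c'.1 : ℕ) + 1 = c.1))

open Classical in
/-- the Lights Out matrix -/
noncomputable def A (n : ℕ) : Matrix (Fin n × Fin n) (Fin n × Fin n) (ZMod 2) :=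
  fun c c' => if c = c' ∨ Adj c c' then 1 else 0

/-- the nullity of the grid -/
noncomputable def d (n : ℕ) : ℕ := Module.finrank (ZMod 2) (LinearMap.ker (A n).mulVecLin)

/-- extension by zero -/
def ext {n : ℕ} (x : Fin n × Fin n → ZMod 2) (i j : ℕ) : ZMod 2 :=
  ∑ c, if (c.1 : ℕ) + 1 = i ∧ (c.2 : ℕ) + 1 = j then x c else 0

lemma ext_in {n : ℕ} (x : Fin n × Fin n → ZMod 2) (c : Fin n × Fin n) :
    ext x (c.1 + 1) (c.2 + 1) = x c := by
  unfold ext
  rw [sum_eq_single c]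
  · simp
  · intro b _ hb
    rw [if_neg]; intro h
    exact hb (Prod.ext (Fin.ext (by omega)) (Fin.ext (by omega)))
  · simp

lemma ext_out {n : ℕ} (x : Fin n × Fin n → ZMod 2) (i j : ℕ)
    (h : i = 0 ∨ j = 0 ∨ n < i ∨ n < j) : ext x i j = 0 := by
  apply sum_eq_zero; intro c _
  have := c.1.2; have := c.2.2
  rw [if_neg (by omega)]

lemma mul_eq {n : ℕ} (x : Fin n × Fin n → ZMod 2) (c : Fin n × Fin n) :
    (A n).mulVec x c = ext x (c.1 + 1) (c.2 + 1) + ext x c.1 (c.2 + 1) + ext x (c.1 + 2) (c.2 + 1) +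
      ext x (c.1 + 1) c.2 + ext x (c.1 + 1) (c.2 + 2) := by
  unfold ext
  simp only [← sum_add_distrib, Matrix.mulVec, dotProduct]
  apply sum_congr rfl; intro b _
  simp only [A, Adj, Prod.ext_iff, Fin.ext_iff]
  split_ifs <;> first | omega | simp

lemma deg_lt (y : ℕ → ZMod 2) (m : ℕ) :
    (∑ b ∈ range m, C (y b) * F (b + 1)).degree < m := by
  refine (degree_sum_le _ _).trans_lt ?_
  refine (Finset.sup_lt_iff (WithBot.bot_lt_coe m)).2 ?_
  intro b hb
  rw [← smul_eq_C_mul]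
  refine (degree_smul_le _ _).trans_lt ((F_deg (b + 1)).2.2.trans_le ?_)
  exact Nat.cast_le.2 (mem_range.1 hb)

lemma indep (y : ℕ → ZMod 2) (m : ℕ) (h : ∑ b ∈ range m, C (y b) * F (b + 1) = 0) :
    ∀ b < m, y b = 0 := by
  induction m with
  | zero => simp
  | succ m ih =>
    rw [sum_range_succ] at h
    have h1 := congrArg (fun p => coeff p m) h
    have h2 : (F (m + 1)).coeff m = 1 := by
      have := (F_deg m).1.coeff_natDegree
      rwa [(F_deg m).2.1] at this
    simp only [coeff_add, coeff_eq_zero_of_degree_lt (deg_lt y m), coeff_C_mul, h2, coeff_zero,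
      zero_add, mul_one] at h1
    rw [h1, C_0, zero_mul, add_zero] at h
    intro b hb
    rcases Nat.lt_succ_iff_lt_or_eq.1 hb with hb | rfl
    · exact ih h b hb
    · exact h1

lemma inj (k m : ℕ) (hm : m + 3 = 2 * 3 ^ k) (Y : ℕ → ℕ → ZMod 2)
    (h0 : ∀ i j, i = 0 ∨ j = 0 ∨ m + 2 < i ∨ m + 2 < j → Y i j = 0)
    (hr : ∀ a < m + 2, ∀ b < m + 2, Y (a + 1) (b + 1) + Y a (b + 1) + Y (a + 2) (b + 1) +
      Y (a + 1) b + Y (a + 1) (b + 2) = 0)
    (e1 : Y 1 (m + 2) = 0) (e2 : Y 1 (m + 1) = 0) : ∀ i j, Y i j = 0 := by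
  have c2 : (2 : (ZMod 2)[X]) = 0 := CharP.cast_eq_zero _ 2
  set R : ℕ → (ZMod 2)[X] := fun i => ∑ b ∈ range (m + 2), C (Y i (b + 1)) * F (b + 1) with hR
  have step : ∀ a < m + 2, R (a + 2) =
      (X + 1) * R (a + 1) + R a + C (Y (a + 1) (m + 2)) * F (m + 3) := by
    intro a ha
    have s1 := (sum_range_succ' (fun b => C (Y (a + 1) b) * F (b + 1)) (m + 2)).symm.trans
      (sum_range_succ _ (m + 2))
    have s2 := (sum_range_succ' (fun b => C (Y (a + 1) (b + 1)) * F b) (m + 2)).symm.trans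
      (sum_range_succ _ (m + 2))
    simp only [h0 (a + 1) 0 (by omega), h0 (a + 1) (m + 2 + 1) (by omega), C_0, zero_mul,
      add_zero, show F 0 = 0 from rfl, mul_zero] at s1 s2
    have s3 : X * R (a + 1) = ∑ b ∈ range (m + 2), C (Y (a + 1) (b + 1)) * F (b + 1 + 1) -
        ∑ b ∈ range (m + 2), C (Y (a + 1) (b + 1)) * F b := by
      simp only [hR, mul_sum, ← sum_sub_distrib]
      apply sum_congr rfl; intro b _
      rw [F]; ring
    have s4 : R (a + 1) + R a + R (a + 2) + ∑ b ∈ range (m + 2), C (Y (a + 1) b) * F (b + 1) +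
        ∑ b ∈ range (m + 2), C (Y (a + 1) (b + 1 + 1)) * F (b + 1) = 0 := by
      simp only [hR, ← sum_add_distrib, ← add_mul, ← C_add]
      apply sum_eq_zero; intro b hb
      rw [hr a ha b (mem_range.1 hb)]; simp
    rw [s1, ← s2] at s3
    linear_combination s4 - s3 - c2 * (R (a + 1) + R a +
      ∑ b ∈ range (m + 2), C (Y (a + 1) b) * F (b + 1) + C (Y (a + 1) (m + 2)) * F (m + 3))
  have R0 : R 0 = 0 := by simp [hR, h0]
  have dv : ∀ i, i ≤ m + 3 → F (m + 3) ∣ R i - (F i).comp (X + 1) * R 1 := by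
    intro i
    induction i using Nat.twoStepInduction with
    | zero => intro _; simp [R0, F]
    | one => intro _; simp [F]
    | more a i1 i2 =>
      intro ha
      have := ((i2 (by omega)).mul_left (X + 1)).add (i1 (by omega)) |>.add
        (dvd_mul_left (F (m + 3)) (C (Y (a + 1) (m + 2))))
      refine this.trans (dvd_of_eq ?_)
      rw [step a (by omega), show F (a + 2) = X * F (a + 1) + F a from rfl]
      simp only [add_comp, mul_comp, X_comp]
      linear_combination (-(F a).comp (X + 1) * R 1 + (F a).comp (X + 1) * R 1) * c2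
  have h1 := dv (m + 3) le_rfl
  have Rn : R (m + 3) = 0 := by
    apply sum_eq_zero; intro b _; rw [h0 _ _ (by omega)]; simp
  rw [Rn, zero_sub, dvd_neg, hm] at h1
  have h2 := key k _ h1
  rw [← hm] at h2
  have h3 : R 1 = ∑ b ∈ range m, C (Y 1 (b + 1)) * F (b + 1) := by
    simp only [hR, sum_range_succ, e1, e2]; simp
  have h4 : R 1 = 0 := by
    by_contra hne
    have mx : (X + 1 : (ZMod 2)[X]).Monic := by simpa using monic_X_add_C (1 : ZMod 2)
    have a1 := natDegree_le_of_dvd h2 (mul_ne_zero (monic_X.mul mx).ne_zero hne)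
    have a2 : (R 1).natDegree < m := by
      rw [natDegree_lt_iff_degree_lt hne, h3]; exact deg_lt _ m
    have a3 : (X + 1 : (ZMod 2)[X]).natDegree = 1 := by simpa using natDegree_X_add_C (1 : ZMod 2)
    rw [(F_deg (m + 2)).2.1, (monic_X.mul mx).natDegree_mul' hne, monic_X.natDegree_mul mx,
      natDegree_X, a3] at a1
    omega
  have h5 := indep (fun b => Y 1 (b + 1)) _ h4
  intro i
  induction i using Nat.twoStepInduction with
  | zero => intro j; exact h0 _ _ (by omega)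
  | one =>
    intro j
    by_cases c : j = 0 ∨ m + 2 < j
    · exact h0 _ _ (by omega)
    · have := h5 (j - 1) (by omega)
      rwa [show j - 1 + 1 = j by omega] at this
  | more a i1 i2 =>
    intro j
    by_cases c : j = 0 ∨ m + 2 < j ∨ m + 2 ≤ a
    · exact h0 _ _ (by omega)
    · have := hr a (by omega) (j - 1) (by omega)
      rw [show j - 1 + 1 = j by omega] at this
      simpa [i1, i2] using this

lemma prod_ker (n : ℕ) (U W : ℕ → ZMod 2) (u0 : U 0 = 0) (u1 : U (n + 1) = 0) (w0 : W 0 = 0)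
    (w1 : W (n + 1) = 0) (i j : ℕ) (hi : i ≤ n + 1) (hj : j ≤ n + 1) :
    ext (fun c : Fin n × Fin n => U (c.1 + 1) * W (c.2 + 1)) i j = U i * W j := by
  by_cases c : i = 0 ∨ j = 0 ∨ n < i ∨ n < j
  · rw [ext_out _ _ _ c]
    rcases c with rfl | rfl | c | c
    · simp [u0]
    · simp [w0]
    · rw [show i = n + 1 by omega, u1, zero_mul]
    · rw [show j = n + 1 by omega, w1, mul_zero]
  · have := ext_in (fun c : Fin n × Fin n => U (c.1 + 1) * W (c.2 + 1))
      (⟨i - 1, by omega⟩, ⟨j - 1, by omega⟩)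
    simp only [show i - 1 + 1 = i by omega, show j - 1 + 1 = j by omega] at this
    exact this

lemma d_eq (k : ℕ) : d (2 * 3 ^ (k + 1) - 1) = 2 := by
  obtain ⟨m, hm⟩ : ∃ m, m + 3 = 2 * 3 ^ (k + 1) :=
    ⟨2 * 3 ^ (k + 1) - 3, by have : 0 < 3 ^ k := by positivity
                             rw [pow_succ]; omega⟩
  rw [show 2 * 3 ^ (k + 1) - 1 = m + 2 by omega]
  have m3 : m % 3 = 0 := by rw [pow_succ] at hm; omega
  have m2 : m % 2 = 1 := by omega
  let f : LinearMap.ker (A (m + 2)).mulVecLin →ₗ[ZMod 2] ZMod 2 × ZMod 2 :=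
    ((LinearMap.proj ((⟨0, by omega⟩, ⟨m + 1, by omega⟩) : Fin (m + 2) × Fin (m + 2))).prod
      (LinearMap.proj ((⟨0, by omega⟩, ⟨m, by omega⟩) : Fin (m + 2) × Fin (m + 2)))).comp
      (Submodule.subtype _)
  let U : ℕ → ZMod 2 := fun i => if i % 2 = 1 then 1 else 0
  let W : ℕ → ZMod 2 := fun i => if i % 3 = 0 then 0 else 1
  have hU : ∀ i, U i + U (i + 2) = 0 := by
    intro i; simp only [U]; split_ifs <;> first | omega | rfl
  have hW : ∀ i, W (i + 1) + W i + W (i + 2) = 0 := by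
    intro i; simp only [W]; split_ifs <;> first | omega | rfl
  have u1 : U (m + 2 + 1) = 0 := if_neg (by omega)
  have w1 : W (m + 2 + 1) = 0 := if_pos (by omega)
  have k1 : (fun c : Fin (m + 2) × Fin (m + 2) => U (c.1 + 1) * W (c.2 + 1)) ∈
      LinearMap.ker (A (m + 2)).mulVecLin := by
    rw [LinearMap.mem_ker]; ext c
    have := c.1.2; have := c.2.2
    rw [Matrix.mulVecLin_apply, mul_eq]
    repeat rw [prod_ker _ U W rfl u1 rfl w1 _ _ (by omega) (by omega)]
    simp only [Pi.zero_apply]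
    linear_combination W (c.2 + 1) * hU c.1 + U (c.1 + 1) * hW c.2
  have k2 : (fun c : Fin (m + 2) × Fin (m + 2) => W (c.1 + 1) * U (c.2 + 1)) ∈
      LinearMap.ker (A (m + 2)).mulVecLin := by
    rw [LinearMap.mem_ker]; ext c
    have := c.1.2; have := c.2.2
    rw [Matrix.mulVecLin_apply, mul_eq]
    repeat rw [prod_ker _ W U rfl w1 rfl u1 _ _ (by omega) (by omega)]
    simp only [Pi.zero_apply]
    linear_combination U (c.2 + 1) * hW c.1 + W (c.1 + 1) * hU c.2
  have f1 : f ⟨_, k1⟩ = (1, 1) := by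
    simp only [f, U, W]; simp; omega
  have f2 : f ⟨_, k2⟩ = (1, 0) := by
    simp only [f, U, W]; simp; omega
  have bij : Function.Bijective f := by
    constructor
    · rw [injective_iff_map_eq_zero]
      rintro ⟨x, hx⟩ h
      have hx' : ∀ c, (A (m + 2)).mulVec x c = 0 := congrFun (LinearMap.mem_ker.1 hx)
      have := inj (k + 1) m hm (ext x) (ext_out x)
        (fun a ha b hb => by have := hx' (⟨a, ha⟩, ⟨b, hb⟩); rwa [mul_eq] at this)
        ((ext_in x (⟨0, by omega⟩, ⟨m + 1, by omega⟩)).trans (congrArg Prod.fst h))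
        ((ext_in x (⟨0, by omega⟩, ⟨m, by omega⟩)).trans (congrArg Prod.snd h))
      ext c
      exact (ext_in x c).symm.trans (this _ _)
    · rintro ⟨a, b⟩
      refine ⟨b • ⟨_, k1⟩ + (a - b) • ⟨_, k2⟩, ?_⟩
      rw [map_add, map_smul, map_smul, f1, f2]; simp
  unfold d
  rw [(LinearEquiv.ofBijective f bij).finrank_eq]; simp

theorem result : (∀ k : ℕ, d (2 * 3 ^ (k + 1) - 1) = 2) ∧ {n : ℕ | 0 < n ∧ d n = 2}.Infinite := by
  refine ⟨d_eq, Set.infinite_of_forall_exists_gt fun k => ⟨2 * 3 ^ (k + 1) - 1, ⟨?_, d_eq k⟩, ?_⟩⟩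
  · have : 0 < 3 ^ (k + 1) := by positivity
    omega
  · have : k + 1 < 3 ^ (k + 1) := Nat.lt_pow_self (by norm_num)
    omega

end Pool.Agent.Results.MP_222d4b_co.Two
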